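import Mathlib
import Pool.Agent.Results.MP_9b502d_nt.LargeCriticalHeight
import Pool.Agent.X328.GM.Fin2

/-!
# Strong uniform boundedness for rational maps with a multiplier of large height
-/

set_option autoImplicit false

namespace Pool.Agent.Results.MP_9b502d_nt.LargeMultiplier

open Polynomial
open Pool.Agent.Results.MP_9b502d_nt.LargeCriticalHeight (Conjugate mapP1 height mapHeight)

universe u v

/-- The map `p / q` of degree `d` over `L` has a fixed point with a multiplier of large height: over
some extension `M` of `L` of degree at most `B` it is conjugate to a map `u / w` of degree `d` which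
fixes `0` and `∞` (that is, `u(0) = 0` and `deg w < deg u = d`), such that `0 < H ≤ B * h(λ)`, where
`H` is the largest height of a coefficient of `u` or `w` and `λ = u'(0) / w(0)` is the multiplier of
the fixed point `0`. (Every map with a fixed point of multiplier different from `1` is conjugate to
such a map over an extension of degree at most `d`.) -/
def HasLargeMultiplier (k : Type v) {L : Type u} [Field k] [Field L] [Algebra k L]
    (p q : L[X]) (d B : ℕ) : Prop :=
  ∃ (M : Type u) (_ : Field M) (_ : Algebra k M) (_ : Algebra L M), IsScalarTower k L M ∧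
    FiniteDimensional L M ∧ Module.finrank L M ≤ B ∧
    ∃ u w : M[X], IsCoprime u w ∧ u.natDegree = d ∧ w.natDegree < d ∧ u.coeff 0 = 0 ∧
      Conjugate (p.map (algebraMap L M)) (q.map (algebraMap L M)) u w d ∧
      0 < mapHeight k u w d ∧
      mapHeight k u w d ≤ B * height k (some (u.coeff 1 / w.coeff 0))

/-- **Strong uniform boundedness for maps with a multiplier of large height.** There is a function
`N` such that the following holds for all `n`, `B` and all `d ≥ 2`, every field `k` of
characteristic zero, every `t` transcendental over `k` and every field `L` of degree at most `n`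
over `k(t)`. Let `p / q` be a rational map of degree `d` over `L`. Suppose that for some `l` with
`1 ≤ l ≤ B` the `l`-th iterate `P / R` of `p / q`, a map of degree `d ^ l`, has a fixed point with
a multiplier of large height (`HasLargeMultiplier k P R (d ^ l) B`), that is, `p / q` has a cycle
of length dividing `l` with a multiplier of large height. Then `p / q` has at most `N(n, d, B)`
preperiodic points in the projective line over `L`. -/
theorem result : ∃ N : ℕ → ℕ → ℕ → ℕ, ∀ (k : Type v) (L : Type u) [Field k] [CharZero k]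
    [Field L] [Algebra k L] (t : L), Transcendental k t →
    FiniteDimensional (IntermediateField.adjoin k {t}) L →
    ∀ (n d B : ℕ), Module.finrank (IntermediateField.adjoin k {t}) L ≤ n → 2 ≤ d →
    ∀ p q : L[X], IsCoprime p q → max p.natDegree q.natDegree = d →
    ∀ l : ℕ, 1 ≤ l → l ≤ B → ∀ P R : L[X], IsCoprime P R →
    max P.natDegree R.natDegree = d ^ l →
    (∀ z : Option L, mapP1 P R (d ^ l) z = (mapP1 p q d)^[l] z) →
    HasLargeMultiplier k P R (d ^ l) B →
    {z : Option L | (Set.range fun m : ℕ => (mapP1 p q d)^[m] z).Finite}.encard ≤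
      ((N n d B : ℕ) : ℕ∞) := by
  obtain ⟨N₀, hN₀⟩ := Pool.Agent.Results.MP_9b502d_nt.LargeCriticalHeight.result.{u, v}
  have h1 : ∀ n d B : ℕ, ∃ B₂ : ℕ, 2 ≤ d → _ := fun n d B => by
    by_cases hd : 2 ≤ d
    · obtain ⟨B₂, hB₂⟩ := Pool.Agent.X328.GM.fin_lch2.{u, v} d n B hd
      exact ⟨B₂, fun _ => hB₂⟩
    · exact ⟨0, fun h => absurd h hd⟩
  choose B₂ hB₂ using h1
  refine ⟨fun n d B => (Finset.range (B + 1)).sup fun l => N₀ n (d ^ l) (B₂ n (d ^ l) B), ?_⟩
  intro k L _ _ _ _ t ht hfd n d B hn hd p q hco hmax l hl1 hlB P R hPR hPRmax hit hlm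
  obtain ⟨M, i1, i2, i3, i4, i5, hfr, u, w, huw, hud, hwd, hu0, hcj, hpos, hmul⟩ := hlm
  have hdl : 2 ≤ d ^ l := hd.trans (Nat.le_self_pow (by omega) d)
  have h2 := hN₀ k L t ht hfd n (d ^ l) _ hn hdl P R hPR hPRmax
    (Or.inl (hB₂ n (d ^ l) B hdl k L t ht hfd hn P R M hfr u w huw hud hwd hu0 hcj hpos hmul))
  have h3 : {z : Option L | (Set.range fun m : ℕ => (mapP1 p q d)^[m] z).Finite} ⊆
      {z : Option L | (Set.range fun m : ℕ => (mapP1 P R (d ^ l))^[m] z).Finite} := by
    intro z hz
    have e : mapP1 P R (d ^ l) = (mapP1 p q d)^[l] := funext hit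
    show (Set.range fun m : ℕ => (mapP1 P R (d ^ l))^[m] z).Finite
    rw [e]
    refine Set.Finite.subset hz ?_
    rintro _ ⟨m, rfl⟩
    exact ⟨l * m, by simp only [Function.iterate_mul]⟩
  refine (Set.encard_le_encard h3).trans (h2.trans ?_)
  have h4 : N₀ n (d ^ l) (B₂ n (d ^ l) B) ≤ (Finset.range (B + 1)).sup
      fun l => N₀ n (d ^ l) (B₂ n (d ^ l) B) :=
    Finset.le_sup (f := fun l => N₀ n (d ^ l) (B₂ n (d ^ l) B))
      (Finset.mem_range.2 (Nat.lt_succ_of_le hlB))
  exact_mod_cast h4

end Pool.Agent.Results.MP_9b502d_nt.LargeMultiplier
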