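import Mathlib
import Pool.Agent.Results.MP_9b502d_nt.LargeCriticalHeight
import Pool.Agent.X263.AL.FinB
import Pool.Agent.X328.AL.FinC
import Pool.Agent.X111.GN.HT
import Pool.Agent.X328.GN.It
import Pool.Agent.X226.UNI
import Pool.Agent.X73.AL.Htr
import Pool.Agent.X319.AL.SP
import Pool.Agent.X193.AL.DSC
import Pool.Agent.X200.AL.Three
import Pool.Agent.X193.AL.ISO
import Pool.Agent.X319.AL.NRM
import Pool.Agent.X263.AL.Itx
import Pool.Agent.X328.AL.Gen2
import Pool.Agent.X32.GN.Spec2
import Pool.Agent.X169.GN.ALG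
import Pool.Agent.X60.GN.Spec
import Pool.Agent.X115.GN.CHI
import Pool.Agent.X32.GN.Fin
import Pool.Agent.X319.GN.DIG
import Pool.Agent.X121.AL.Cyc

/-!
# Strong uniform boundedness in characteristic zero outside the non-rigid maps

The multipliers of all cycles of a rational map determine it up to finitely many choices, except
for flexible Lattès maps (McMullen 1987). The theorem is strong uniform boundedness for all rational
maps over function fields of characteristic zero which are not specialisations of maps violating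
this rigidity.
-/

set_option autoImplicit false

namespace Pool.Agent.Results.MP_9b502d_nt.AllMapsCharZero

open Polynomial
open Pool.Agent.Results.MP_9b502d_nt.LargeCriticalHeight (Conjugate mapP1 IsotrivialOver)

universe u v

/-- The `2 d - 2` parameters of the normal form of rational maps of degree `d`. -/
abbrev Ix (d : ℕ) := Fin (d - 1) ⊕ Fin (d - 1)

/-- The numerator `X ^ d + a_1 X + ... + a_{d-1} X ^ (d-1)` of the normal form with parameters
`κ = (a, b)`. -/
noncomputable def num (d : ℕ) {K : Type*} [CommRing K] (κ : Ix d → K) : K[X] :=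
  X ^ d + ∑ i : Fin (d - 1), C (κ (Sum.inl i)) * X ^ (i.1 + 1)

/-- The denominator `c + b_1 X + ... + b_{d-1} X ^ (d-1)` of the normal form with parameters
`κ = (a, b)`, where `c = 1 + ∑ a_i - ∑ b_i`, so the map `num / den` fixes `0`, `1` and `∞`. -/
noncomputable def den (d : ℕ) {K : Type*} [CommRing K] (κ : Ix d → K) : K[X] :=
  C (1 + ∑ i : Fin (d - 1), κ (Sum.inl i) - ∑ i : Fin (d - 1), κ (Sum.inr i)) +
    ∑ i : Fin (d - 1), C (κ (Sum.inr i)) * X ^ (i.1 + 1)

/-- The value at `x` of the map `f = num / den` with parameters `κ`. -/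
noncomputable def value (d : ℕ) {K : Type*} [Field K] (κ : Ix d → K) (x : K) : K :=
  (num d κ).eval x / (den d κ).eval x

/-- The element `y` is the multiplier of a cycle of `f = num / den`, different from the fixed point
`∞`: for some `x` in `K` and `n ≥ 1` the points `x, f(x), ..., f^(n-1)(x)` are not poles of `f`,
`f^n(x) = x`, and `y` is the product of the derivatives of `f` at these points. -/
def IsMultiplier (d : ℕ) {K : Type*} [Field K] (κ : Ix d → K) (y : K) : Prop :=
  ∃ (n : ℕ) (x : K), 1 ≤ n ∧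
    ((∀ m < n, (den d κ).eval ((value d κ)^[m] x) ≠ 0) ∧ (value d κ)^[n] x = x) ∧
    y = ∏ m ∈ Finset.range n,
      (derivative (num d κ) * den d κ - num d κ * derivative (den d κ)).eval
        ((value d κ)^[m] x) / (den d κ).eval ((value d κ)^[m] x) ^ 2

/-- The map `num / den` with parameters `κ` is rigid: its parameters are algebraic over the field
generated by the multipliers of its cycles. -/
def IsRigid (d : ℕ) {K : Type*} [Field K] [CharZero K] (κ : Ix d → K) : Prop :=
  ∀ i, IsAlgebraic (IntermediateField.adjoin ℚ {y : K | IsMultiplier d κ y}) (κ i)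

/-- The parameters `κ` are exceptional: they are a specialisation (over `ℚ`) of parameters `κ'` of a
map of degree `d` over an algebraically closed field which is not rigid. -/
def IsExceptional (d : ℕ) {K : Type*} [Field K] [CharZero K] (κ : Ix d → K) : Prop :=
  ∃ (Ω : Type) (_ : Field Ω) (_ : CharZero Ω) (_ : IsAlgClosed Ω) (κ' : Ix d → Ω),
    ¬ IsRigid d κ' ∧ IsCoprime (num d κ') (den d κ') ∧
    ∀ F : MvPolynomial (Ix d) ℚ, MvPolynomial.aeval κ' F = 0 → MvPolynomial.aeval κ F = 0

/-- Some iterate `P / R = (p / q)^l`, `l ≥ 1`, of the map `p / q` of degree `d` over `K` is conjugate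
over `K` to an exceptional map `num κ / den κ` (of degree `d ^ l`, fixing `0`, `1`, `∞`). -/
def HasExceptionalIterate {K : Type*} [Field K] (p q : K[X]) (d : ℕ) : Prop :=
  ∃ (_ : CharZero K) (l : ℕ), 1 ≤ l ∧ ∃ P R : K[X], IsCoprime P R ∧
    max P.natDegree R.natDegree = d ^ l ∧
    (∀ z : Option K, mapP1 P R (d ^ l) z = (mapP1 p q d)^[l] z) ∧ ∃ κ : Ix (d ^ l) → K,
    IsCoprime (num (d ^ l) κ) (den (d ^ l) κ) ∧
    Conjugate P R (num (d ^ l) κ) (den (d ^ l) κ) (d ^ l) ∧ IsExceptional (d ^ l) κ

/-- The `m`-th iterate of the map `p / q` of degree `d` has (at least) three different fixed points in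
the projective line over `K`. -/
def HasThreeFixedPoints {K : Type*} [Field K] (p q : K[X]) (d m : ℕ) : Prop :=
  ∃ z : Fin 3 → Option K, Function.Injective z ∧ ∀ i, (mapP1 p q d)^[m] (z i) = z i

/-- The map `f = p / q` of degree `d` over `K` is exceptional: for the least `l ≥ 1` such that the iterate
`f^l = P / R` has three different fixed points, `f^l` is conjugate over `K` to an exceptional map
`num κ / den κ` (of degree `d ^ l`, fixing `0`, `1`, `∞`). If `f` has three different fixed points, then
`l = 1`. -/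
def IsExceptionalMap {K : Type*} [Field K] (p q : K[X]) (d : ℕ) : Prop :=
  ∃ (_ : CharZero K) (l : ℕ), 1 ≤ l ∧ (∀ m : ℕ, 1 ≤ m → m < l → ¬ HasThreeFixedPoints p q d m) ∧
    ∃ P R : K[X], IsCoprime P R ∧ max P.natDegree R.natDegree = d ^ l ∧
    (∀ z : Option K, mapP1 P R (d ^ l) z = (mapP1 p q d)^[l] z) ∧ ∃ κ : Ix (d ^ l) → K,
    IsCoprime (num (d ^ l) κ) (den (d ^ l) κ) ∧
    Conjugate P R (num (d ^ l) κ) (den (d ^ l) κ) (d ^ l) ∧ IsExceptional (d ^ l) κ

theorem main (hITX : Pool.Agent.X263.AL.S_ITX.{u}) (hTHREE : Pool.Agent.X263.AL.S_THREE.{u})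
    (hNRM : Pool.Agent.X263.AL.S_NRM.{u}) (hISO : Pool.Agent.X263.AL.S_ISO.{u, v}) :
    ∃ N : ℕ → ℕ → ℕ, ∀ (k : Type v) (L : Type u)
    [Field k] [CharZero k] [Field L] [Algebra k L] (t : L), Transcendental k t →
    FiniteDimensional (IntermediateField.adjoin k {t}) L →
    ∀ (n d : ℕ), Module.finrank (IntermediateField.adjoin k {t}) L ≤ n → 2 ≤ d →
    ∀ p q : L[X], IsCoprime p q → max p.natDegree q.natDegree = d →
    ¬ IsotrivialOver k (p.map (algebraMap L (AlgebraicClosure L)))
      (q.map (algebraMap L (AlgebraicClosure L))) d →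
    ¬ IsExceptionalMap (p.map (algebraMap L (AlgebraicClosure L)))
      (q.map (algebraMap L (AlgebraicClosure L))) d →
    {z : Option L | (Set.range fun m : ℕ => (mapP1 p q d)^[m] z).Finite}.encard ≤
      ((N n d : ℕ) : ℕ∞) := by
  have h1 : ∀ n d : ℕ, ∃ N : ℕ, 2 ≤ d → _ := fun n d => by
    by_cases hd : 2 ≤ d
    · obtain ⟨N, hN⟩ := Pool.Agent.X328.AL.fin_int1.{u, v} (fun D hD =>
        Pool.Agent.X263.AL.fin_all.{u, v}
        (Pool.Agent.X226.UNI.t_UNI Pool.Agent.X319.AL.t_SP) Pool.Agent.X73.AL.t_HTR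
        Pool.Agent.X193.AL.t_DSC Pool.Agent.X328.GN.It.it_all Pool.Agent.X111.GN.t_HT1
        Pool.Agent.X111.GN.t_HT2 D hD) hITX hTHREE hNRM hISO d hd n
      exact ⟨N, fun _ => hN⟩
    · exact ⟨0, fun h => absurd h hd⟩
  choose N hN using h1
  refine ⟨N, ?_⟩
  intro k L _ _ _ _ t ht hfd n d hn hd p q hco hmax hiso hexc
  have cK : CharZero (AlgebraicClosure L) :=
    charZero_of_injective_algebraMap (algebraMap k (AlgebraicClosure L)).injective
  exact hN n d hd k L t ht hfd hn p q hco hmax hiso fun h => hexc ⟨cK, h⟩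

theorem generic (d : ℕ) (hd : 2 ≤ d) : ∃ D : MvPolynomial (Ix d) ℚ,
    MvPolynomial.aeval (fun _ => (0 : ℚ)) D ≠ 0 ∧
    ∀ (K : Type u) [Field K] [CharZero K] (κ : Ix d → K), IsExceptional d κ →
      MvPolynomial.aeval κ D = 0 := by
  have hRIG : Pool.Agent.X328.GN.S_RIG.{0} := Pool.Agent.X32.GN.rig Pool.Agent.X328.GN.It.it_all
    Pool.Agent.X319.GN.t_DIG
  have hSPEC : Pool.Agent.X328.GN.S_SPEC2.{0} := Pool.Agent.X32.GN.t_SPEC2 hRIG
    (Pool.Agent.X115.GN.t_CHI Pool.Agent.X328.GN.It.it_all)
    (Pool.Agent.X115.GN.t_CHI Pool.Agent.X328.GN.It.it_all) Pool.Agent.X328.GN.It.it_all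
  exact Pool.Agent.X328.AL.t_EXC2.{u, 0} hSPEC
    (Pool.Agent.X115.GN.t_CHI Pool.Agent.X328.GN.It.it_all) Pool.Agent.X328.GN.It.it_all d hd

theorem main2 (hCYC : Pool.Agent.X263.AL.S_CYC.{u}) :
    ∃ N : ℕ → ℕ → ℕ, ∀ (k : Type v) (L : Type u)
    [Field k] [CharZero k] [Field L] [Algebra k L] (t : L), Transcendental k t →
    FiniteDimensional (IntermediateField.adjoin k {t}) L →
    ∀ (n d : ℕ), Module.finrank (IntermediateField.adjoin k {t}) L ≤ n → 2 ≤ d →
    ∀ p q : L[X], IsCoprime p q → max p.natDegree q.natDegree = d →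
    ¬ IsotrivialOver k (p.map (algebraMap L (AlgebraicClosure L)))
      (q.map (algebraMap L (AlgebraicClosure L))) d →
    ¬ IsExceptionalMap (p.map (algebraMap L (AlgebraicClosure L)))
      (q.map (algebraMap L (AlgebraicClosure L))) d →
    {z : Option L | (Set.range fun m : ℕ => (mapP1 p q d)^[m] z).Finite}.encard ≤
      ((N n d : ℕ) : ℕ∞) :=
  main.{u, v} Pool.Agent.X263.AL.t_ITX (Pool.Agent.X200.AL.t_THREE hCYC) Pool.Agent.X319.AL.t_NRM
    (Pool.Agent.X193.AL.t_ISO (Pool.Agent.X200.AL.t_INF hCYC))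

/-- **Strong uniform boundedness in characteristic zero outside the non-rigid maps.**

(1) There is a function `N` such that the following holds for all `n` and all `d ≥ 2`, every field `k`
of characteristic zero, every `t` transcendental over `k` and every field `L` of degree at most `n`
over `k(t)`: if `p / q` is a rational map of degree `d` over `L` which over the algebraic closure of
`L` is not isotrivial (conjugate to a map with coefficients algebraic over `k`) and not exceptional,
then `p / q` has at most `N(n, d)` preperiodic points in the projective line over `L`.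

(2) For every `d ≥ 2` there is a polynomial `D` with rational coefficients in the `2 d - 2` parameters
with `D(0) ≠ 0` such that `D(κ) = 0` for all exceptional `κ` (`κ = 0` is the map `X ^ d`). -/
theorem result : (∃ N : ℕ → ℕ → ℕ, ∀ (k : Type v) (L : Type u)
    [Field k] [CharZero k] [Field L] [Algebra k L] (t : L), Transcendental k t →
    FiniteDimensional (IntermediateField.adjoin k {t}) L →
    ∀ (n d : ℕ), Module.finrank (IntermediateField.adjoin k {t}) L ≤ n → 2 ≤ d →
    ∀ p q : L[X], IsCoprime p q → max p.natDegree q.natDegree = d →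
    ¬ IsotrivialOver k (p.map (algebraMap L (AlgebraicClosure L)))
      (q.map (algebraMap L (AlgebraicClosure L))) d →
    ¬ IsExceptionalMap (p.map (algebraMap L (AlgebraicClosure L)))
      (q.map (algebraMap L (AlgebraicClosure L))) d →
    {z : Option L | (Set.range fun m : ℕ => (mapP1 p q d)^[m] z).Finite}.encard ≤
      ((N n d : ℕ) : ℕ∞)) ∧
    ∀ d : ℕ, 2 ≤ d → ∃ D : MvPolynomial (Ix d) ℚ, MvPolynomial.aeval (fun _ => (0 : ℚ)) D ≠ 0 ∧
      ∀ (K : Type u) [Field K] [CharZero K] (κ : Ix d → K), IsExceptional d κ →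
        MvPolynomial.aeval κ D = 0 :=
  ⟨main2.{u, v} (fun K _ _ _ => Pool.Agent.X121.AL.cyc K), generic.{u}⟩

end Pool.Agent.Results.MP_9b502d_nt.AllMapsCharZero
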