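import Mathlib
import Pool.Agent.Results.MP_9b502d_nt.LargeCriticalHeight
import Pool.Agent.X328.GN.Fin6
import Pool.Agent.X328.GN.Fin7
import Pool.Agent.X32.GN.Spec2
import Pool.Agent.X111.GN.HT
import Pool.Agent.X115.GN.CHI
import Pool.Agent.X32.GN.Fin
import Pool.Agent.X319.GN.DIG
import Pool.Agent.X319.GN.NORM
import Pool.Agent.X200.Del2
import Pool.Agent.X328.GN.It

/-!
# Strong uniform boundedness for generic rational maps of every degree
-/

set_option autoImplicit false

namespace Pool.Agent.Results.MP_9b502d_nt.GenericMaps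

open Polynomial
open Pool.Agent.Results.MP_9b502d_nt.LargeCriticalHeight (Conjugate IsotrivialOver mapP1)

universe u v

/-- The value of the polynomial `Δ` in `2 d + 2` variables at the coefficients of `p` and `q`. -/
noncomputable def coeffValue {L : Type*} [Field L] (d : ℕ)
    (Δ : MvPolynomial (Fin (d + 1) ⊕ Fin (d + 1)) ℤ) (p q : L[X]) : L :=
  MvPolynomial.aeval (Sum.elim (fun i : Fin (d + 1) => p.coeff i)
    (fun i : Fin (d + 1) => q.coeff i)) Δ

/-- **Strong uniform boundedness for generic rational maps.** For every `d ≥ 2` there are a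
polynomial `Δ` with integer coefficients in the `2 d + 2` coefficients of a rational map `p / q` of
degree `d`, not vanishing for some conjugate over `ℚ` of the map `X ^ d`, and a function `N` such
that the following holds for all `n`, every field `k` of characteristic zero, every `t`
transcendental over `k` and every field `L` of degree at most `n` over `k(t)`: every rational map
`p / q` of degree `d` over `L` which is not isotrivial and for which `Δ` does not vanish has at most
`N(n)` preperiodic points in the projective line over `L`. -/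
theorem result (d : ℕ) (hd : 2 ≤ d) : ∃ Δ : MvPolynomial (Fin (d + 1) ⊕ Fin (d + 1)) ℤ,
    (∃ p₀ q₀ : ℚ[X], Conjugate (X ^ d) 1 p₀ q₀ d ∧ coeffValue d Δ p₀ q₀ ≠ 0) ∧
    ∃ N : ℕ → ℕ, ∀ (k : Type v) (L : Type u) [Field k] [CharZero k] [Field L] [Algebra k L] (t : L),
    Transcendental k t → FiniteDimensional (IntermediateField.adjoin k {t}) L →
    ∀ n : ℕ, Module.finrank (IntermediateField.adjoin k {t}) L ≤ n →
    ∀ p q : L[X], IsCoprime p q → max p.natDegree q.natDegree = d → coeffValue d Δ p q ≠ 0 →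
    ¬ IsotrivialOver k (p.map (algebraMap L (AlgebraicClosure L)))
      (q.map (algebraMap L (AlgebraicClosure L))) d →
    {z : Option L | (Set.range fun m : ℕ => (mapP1 p q d)^[m] z).Finite}.encard ≤
      ((N n : ℕ) : ℕ∞) := by
  have hRIG : Pool.Agent.X328.GN.S_RIG.{0} := Pool.Agent.X32.GN.rig Pool.Agent.X328.GN.It.it_all
    Pool.Agent.X319.GN.t_DIG
  have hSPEC : Pool.Agent.X328.GN.S_SPEC2.{u} := Pool.Agent.X32.GN.t_SPEC2 hRIG
    (Pool.Agent.X115.GN.t_CHI Pool.Agent.X328.GN.It.it_all)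
    (Pool.Agent.X115.GN.t_CHI Pool.Agent.X328.GN.It.it_all) Pool.Agent.X328.GN.It.it_all
  have hgen := Pool.Agent.X328.GN.gen3.{u, v} Pool.Agent.X328.GN.It.it_all
    (Pool.Agent.X115.GN.t_CHI Pool.Agent.X328.GN.It.it_all)
    (Pool.Agent.X115.GN.t_CHI Pool.Agent.X328.GN.It.it_all) hSPEC
    Pool.Agent.X111.GN.t_HT1 Pool.Agent.X111.GN.t_HT2 Pool.Agent.X111.GN.t_HT3 d hd
  obtain ⟨Δ, hΔ, h⟩ := Pool.Agent.X328.GN.gen4.{u, v} Pool.Agent.X319.GN.t_NORM
    Pool.Agent.X200.Del2.t_DEL2 d hd hgen
  choose N hN using h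
  refine ⟨Δ, ⟨C (2 ^ d) * X ^ d, C (2 ^ d) * X ^ d - C 2 * (X - 1) ^ d,
    Pool.Agent.X328.GN.conj_az d, hΔ⟩, N, ?_⟩
  intro k L _ _ _ _ t ht hfd n hn p q hco hmax hΔpq hiso
  exact hN n k L t ht hfd hn p q hco hmax hΔpq hiso

end Pool.Agent.Results.MP_9b502d_nt.GenericMaps
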