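import Mathlib
import Pool.Agent.X263.CC.Main
import Pool.Agent.Results.MP_9b502d_nt.LargeCriticalHeight

/-!
# Strong uniform boundedness for rational maps with constant critical points

Let `g` be a rational map of degree `d` with constant coefficients and `A` an invertible matrix over
a function field `M`, not proportional to a constant matrix. The map `f = A ∘ g` has constant critical
points (and a map with constant critical points has this form). If `g` has `m` critical values
`v_1, …, v_m`, then the heights of the critical values `A v_i` of `f` add up to at least `(m - 2) h(A)`, and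
`h(f(x)) ≥ d h(x) - h(A)` for all `x`. So the canonical height of some critical point is at least a
constant times `h(A)` if `(d - 1) (m - 2) > m`, and the starting theorem `LargeCriticalHeight` bounds
the number of preperiodic points.
-/

set_option autoImplicit false

namespace Pool.Agent.Results.MP_9b502d_nt.ConstantCriticalPoints

open Polynomial

universe u v

/-- The self-map of the projective line `K ∪ {∞}`, where `none` is `∞`, given by the rational
function `p / q`, where `p` and `q` are coprime and `d` is the larger of their degrees: it sends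
`x` to `p(x) / q(x)`, or to `∞` when `q(x) = 0`, and it sends `∞` to the quotient of the
coefficients of degree `d`, or to `∞` when that of `q` is zero. -/
noncomputable def mapP1 {K : Type*} [Field K] (p q : K[X]) (d : ℕ) : Option K → Option K
  | some x => by classical exact if q.eval x = 0 then none else some (p.eval x / q.eval x)
  | none => by classical exact if q.coeff d = 0 then none else some (p.coeff d / q.coeff d)

/-- The point `c` is a critical point of the map `p / q` of degree `d` (in characteristic zero):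
a zero of `p' q - p q'`, or `∞` if `p' q - p q'` has degree less than `2 d - 2`. -/
def IsCritical {M : Type*} [Field M] (p q : M[X]) (d : ℕ) : Option M → Prop
  | some x => (derivative p * q - p * derivative q).eval x = 0
  | none => (derivative p * q - p * derivative q).coeff (2 * d - 2) = 0

/-- The map `p / q` of degree `d` has at least `m` critical values in the projective line over
`M`. -/
def HasCriticalValues {M : Type*} [Field M] (p q : M[X]) (d m : ℕ) : Prop :=
  ∃ ξ : Fin m → Option M, (∀ i, IsCritical p q d (ξ i)) ∧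
    Function.Injective fun i => mapP1 p q d (ξ i)

/-- The map `u / w` of degree `d` is the conjugate `φ ∘ (p / q) ∘ φ⁻¹` of the map `p / q` of
degree `d` by `φ(x) = (a x + b) / (c x + e)` for some `a, b, c, e` in `M` with `a e ≠ b c`; the
equation `(u / w) ∘ φ = φ ∘ (p / q)` is written with denominators cleared. -/
def Conjugate {M : Type*} [Field M] (p q u w : M[X]) (d : ℕ) : Prop :=
  ∃ a b c e : M, a * e - b * c ≠ 0 ∧ ∃ s : M, s ≠ 0 ∧
    ∑ i ∈ Finset.range (d + 1),
      C (u.coeff i) * (C a * X + C b) ^ i * (C c * X + C e) ^ (d - i) =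
        C s * (C a * p + C b * q) ∧
    ∑ i ∈ Finset.range (d + 1),
      C (w.coeff i) * (C a * X + C b) ^ i * (C c * X + C e) ^ (d - i) =
        C s * (C c * p + C e * q)

/-- Over some extension `M` of `L` of degree at most `B` the map `p / q` of degree `d` is conjugate to
the map `A ∘ (g₁ / g₂)`, where `g₁ / g₂` is a map of degree `d` with coefficients algebraic over `k`,
with all critical points in the projective line over `M` and at least `m` critical values, and
`A(x) = (a x + b) / (c x + e)` is invertible and not proportional to a matrix with entries algebraic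
over `k`. -/
def HasConstantCriticalPoints (k : Type v) {L : Type u} [Field k] [Field L] [Algebra k L]
    (p q : L[X]) (d m B : ℕ) : Prop :=
  ∃ (M : Type u) (_ : Field M) (_ : Algebra k M) (_ : Algebra L M), IsScalarTower k L M ∧
    FiniteDimensional L M ∧ Module.finrank L M ≤ B ∧
    ∃ g₁ g₂ : M[X], IsCoprime g₁ g₂ ∧ max g₁.natDegree g₂.natDegree = d ∧
      (∀ i, IsAlgebraic k (g₁.coeff i)) ∧ (∀ i, IsAlgebraic k (g₂.coeff i)) ∧
      (derivative g₁ * g₂ - g₁ * derivative g₂).Splits ∧ HasCriticalValues g₁ g₂ d m ∧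
      ∃ a b c e : M, a * e - b * c ≠ 0 ∧
        (¬ ∃ s : M, s ≠ 0 ∧ IsAlgebraic k (s * a) ∧ IsAlgebraic k (s * b) ∧
          IsAlgebraic k (s * c) ∧ IsAlgebraic k (s * e)) ∧
        Conjugate (p.map (algebraMap L M)) (q.map (algebraMap L M))
          (C a * g₁ + C b * g₂) (C c * g₁ + C e * g₂) d

lemma conj_scale {M : Type*} [Field M] {p q u w : M[X]} {d : ℕ} (h : Conjugate p q u w d) (r : M)
    (hr : r ≠ 0) : Conjugate p q (C r * u) (C r * w) d := by
  obtain ⟨a, b, c, e, hdet, s, hs, h1, h2⟩ := h
  have key : ∀ v : M[X], ∑ i ∈ Finset.range (d + 1),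
      C ((C r * v).coeff i) * (C a * X + C b) ^ i * (C c * X + C e) ^ (d - i) =
      C r * ∑ i ∈ Finset.range (d + 1),
        C (v.coeff i) * (C a * X + C b) ^ i * (C c * X + C e) ^ (d - i) := by
    intro v
    rw [Finset.mul_sum]
    refine Finset.sum_congr rfl fun i _ => ?_
    rw [coeff_C_mul, C_mul]
    ring
  refine ⟨a, b, c, e, hdet, r * s, mul_ne_zero hr hs, ?_, ?_⟩
  · rw [key, h1, C_mul]
    ring
  · rw [key, h2, C_mul]
    ring

lemma deg_comb {M : Type*} [Field M] {g₁ g₂ : M[X]} {d : ℕ}
    (hmax : max g₁.natDegree g₂.natDegree = d) {a b c e : M} (hdet : a * e - b * c ≠ 0) :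
    max (C a * g₁ + C b * g₂).natDegree (C c * g₁ + C e * g₂).natDegree = d := by
  have h1 : g₁.natDegree ≤ d := hmax ▸ le_max_left _ _
  have h2 : g₂.natDegree ≤ d := hmax ▸ le_max_right _ _
  have key : ∀ s t : M, (C s * g₁ + C t * g₂).natDegree ≤ d := by
    intro s t
    refine (natDegree_add_le _ _).trans (max_le ?_ ?_)
    · exact (natDegree_C_mul_le _ _).trans h1
    · exact (natDegree_C_mul_le _ _).trans h2
  apply le_antisymm (max_le (key a b) (key c e))
  by_contra hcon
  push Not at hcon
  obtain ⟨h3, h4⟩ := max_lt_iff.1 hcon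
  have h5 : (C a * g₁ + C b * g₂).coeff d = 0 := coeff_eq_zero_of_natDegree_lt h3
  have h6 : (C c * g₁ + C e * g₂).coeff d = 0 := coeff_eq_zero_of_natDegree_lt h4
  rw [coeff_add, coeff_C_mul, coeff_C_mul] at h5 h6
  have h7 : (a * e - b * c) * g₁.coeff d = 0 := by linear_combination e * h5 - b * h6
  have h8 : (a * e - b * c) * g₂.coeff d = 0 := by linear_combination a * h6 - c * h5
  have h9 := (mul_eq_zero.1 h7).resolve_left hdet
  have h10 := (mul_eq_zero.1 h8).resolve_left hdet
  have hd0 : 0 < d := lt_of_le_of_lt (Nat.zero_le _) h3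
  rcases le_total g₁.natDegree g₂.natDegree with h | h
  · rw [max_eq_right h] at hmax
    rw [← hmax, coeff_natDegree, leadingCoeff_eq_zero] at h10
    rw [h10, natDegree_zero] at hmax
    omega
  · rw [max_eq_left h] at hmax
    rw [← hmax, coeff_natDegree, leadingCoeff_eq_zero] at h9
    rw [h9, natDegree_zero] at hmax
    omega

lemma coprime_comb {M : Type*} [Field M] {g₁ g₂ : M[X]} (hco : IsCoprime g₁ g₂) {a b c e : M}
    (hdet : a * e - b * c ≠ 0) : IsCoprime (C a * g₁ + C b * g₂) (C c * g₁ + C e * g₂) := by
  obtain ⟨x, y, h⟩ := hco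
  set D := a * e - b * c with hD
  refine ⟨C D⁻¹ * (C e * x - C c * y), C D⁻¹ * (C a * y - C b * x), ?_⟩
  have h1 : C D⁻¹ * (C a * C e - C b * C c) = (1 : M[X]) := by
    rw [← C_mul, ← C_mul, ← C_sub, ← hD, ← C_mul, inv_mul_cancel₀ hdet, C_1]
  linear_combination (C D⁻¹ * (C a * C e - C b * C c)) * h + h1

lemma wr_comb {M : Type*} [Field M] (g₁ g₂ : M[X]) (a b c e : M) :
    derivative (C a * g₁ + C b * g₂) * (C c * g₁ + C e * g₂) -
      (C a * g₁ + C b * g₂) * derivative (C c * g₁ + C e * g₂) =
    C (a * e - b * c) * (derivative g₁ * g₂ - g₁ * derivative g₂) := by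
  rw [derivative_add, derivative_add, derivative_C_mul, derivative_C_mul, derivative_C_mul,
    derivative_C_mul, C_sub, C_mul, C_mul]
  ring

/-- some coefficient of the map is transcendental -/
lemma exists_tr (k : Type v) {M : Type u} [Field k] [Field M] [Algebra k M] {g₁ g₂ : M[X]}
    (hco : IsCoprime g₁ g₂) {d : ℕ} (hmax : max g₁.natDegree g₂.natDegree = d) (hd : 1 ≤ d)
    (hg₁ : ∀ i, IsAlgebraic k (g₁.coeff i)) (hg₂ : ∀ i, IsAlgebraic k (g₂.coeff i)) (s t : M)
    (hst : Transcendental k s ∨ Transcendental k t) :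
    ∃ i ≤ d, Transcendental k ((C s * g₁ + C t * g₂).coeff i) := by
  have h1 : g₁.natDegree ≤ d := hmax ▸ le_max_left _ _
  have h2 : g₂.natDegree ≤ d := hmax ▸ le_max_right _ _
  by_contra hcon
  push Not at hcon
  have hall : ∀ i, IsAlgebraic k (s * g₁.coeff i + t * g₂.coeff i) := by
    intro i
    by_cases hi : i ≤ d
    · have := hcon i hi
      unfold Transcendental at this
      push Not at this
      rwa [coeff_add, coeff_C_mul, coeff_C_mul] at this
    · rw [coeff_eq_zero_of_natDegree_lt (by omega : g₁.natDegree < i),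
        coeff_eq_zero_of_natDegree_lt (by omega : g₂.natDegree < i), mul_zero, mul_zero, add_zero]
      exact isAlgebraic_zero
  obtain ⟨i, j, hij⟩ : ∃ i j, g₁.coeff i * g₂.coeff j - g₁.coeff j * g₂.coeff i ≠ 0 := by
    by_contra hcon2
    push Not at hcon2
    have hg20 : g₂ ≠ 0 := by
      rintro rfl
      have h3 := isCoprime_zero_right.1 hco
      have h4 := natDegree_eq_zero_of_isUnit h3
      rw [h4, natDegree_zero, max_self] at hmax
      omega
    obtain ⟨j, hj⟩ : ∃ j, g₂.coeff j ≠ 0 := by
      by_contra h
      push Not at h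
      exact hg20 (Polynomial.ext fun n => by rw [h n, coeff_zero])
    have h3 : g₁ = C (g₁.coeff j / g₂.coeff j) * g₂ := by
      ext i
      rw [coeff_C_mul, div_mul_eq_mul_div, eq_div_iff hj]
      exact sub_eq_zero.1 (hcon2 i j)
    have h4 : g₂ ∣ g₁ := ⟨C (g₁.coeff j / g₂.coeff j), by rw [mul_comm]; exact h3⟩
    have h5 : IsUnit g₂ := hco.isUnit_of_dvd' h4 dvd_rfl
    have h6 := natDegree_eq_zero_of_isUnit h5
    have h7 : g₁.natDegree = 0 := by
      have := natDegree_C_mul_le (g₁.coeff j / g₂.coeff j) g₂
      rw [← h3] at this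
      omega
    rw [h6, h7, max_self] at hmax
    omega
  have hDal : IsAlgebraic k (g₁.coeff i * g₂.coeff j - g₁.coeff j * g₂.coeff i) :=
    ((hg₁ i).mul (hg₂ j)).sub ((hg₁ j).mul (hg₂ i))
  have hs : IsAlgebraic k s := by
    have h3 : s = ((s * g₁.coeff i + t * g₂.coeff i) * g₂.coeff j -
        (s * g₁.coeff j + t * g₂.coeff j) * g₂.coeff i) *
        (g₁.coeff i * g₂.coeff j - g₁.coeff j * g₂.coeff i)⁻¹ := by
      rw [eq_mul_inv_iff_mul_eq₀ hij]
      ring
    rw [h3]
    exact (((hall i).mul (hg₂ j)).sub ((hall j).mul (hg₂ i))).mul hDal.inv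
  have ht : IsAlgebraic k t := by
    have h3 : t = ((s * g₁.coeff j + t * g₂.coeff j) * g₁.coeff i -
        (s * g₁.coeff i + t * g₂.coeff i) * g₁.coeff j) *
        (g₁.coeff i * g₂.coeff j - g₁.coeff j * g₂.coeff i)⁻¹ := by
      rw [eq_mul_inv_iff_mul_eq₀ hij]
      ring
    rw [h3]
    exact (((hall j).mul (hg₁ i)).sub ((hall i).mul (hg₁ j))).mul hDal.inv
  rcases hst with h | h
  · exact h hs
  · exact h ht

/-- **Strong uniform boundedness for rational maps with constant critical points.** There is a
function `N` such that the following holds for all `n`, `d`, `B`, every field `k` of characteristic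
zero, every `t` transcendental over `k` and every field `L` of degree at most `n` over `k(t)`. Let
`p / q` be a rational map of degree `d` over `L` with `HasConstantCriticalPoints k p q d m B`, where
`d ≥ 5` and `m = 3`, or `d = m = 4`: over an extension of `L` of degree at most `B` it is conjugate
to `A ∘ g`, where `g` has constant coefficients and at least `m` critical values, and `A` is not a
constant matrix. Then `p / q` has at most `N(n, d, B)` preperiodic points in the projective line
over `L`. -/
theorem result : ∃ N : ℕ → ℕ → ℕ → ℕ, ∀ (k : Type v) (L : Type u) [Field k] [CharZero k]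
    [Field L] [Algebra k L] (t : L), Transcendental k t →
    FiniteDimensional (IntermediateField.adjoin k {t}) L →
    ∀ (n d B : ℕ), Module.finrank (IntermediateField.adjoin k {t}) L ≤ n →
    ∀ p q : L[X], IsCoprime p q → max p.natDegree q.natDegree = d →
    (5 ≤ d ∧ HasConstantCriticalPoints k p q d 3 B ∨
      d = 4 ∧ HasConstantCriticalPoints k p q d 4 B) →
    {z : Option L | (Set.range fun m : ℕ => (mapP1 p q d)^[m] z).Finite}.encard ≤
      ((N n d B : ℕ) : ℕ∞) := by
  obtain ⟨N₀, hN₀⟩ := Pool.Agent.Results.MP_9b502d_nt.LargeCriticalHeight.result.{u, v}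
  have hmain : ∀ n d m : ℕ, ∃ B : ℕ, 2 ≤ d → 3 ≤ m → 2 * ((d : ℤ) - 1) < m * ((d : ℤ) - 2) → _ :=
    fun n d m => by
      by_cases h : 2 ≤ d ∧ 3 ≤ m ∧ 2 * ((d : ℤ) - 1) < m * ((d : ℤ) - 2)
      · obtain ⟨B, hB⟩ := Pool.Agent.X263.CC.main.{u, v} n d m h.1 h.2.1 h.2.2
        exact ⟨B, fun _ _ _ => hB⟩
      · exact ⟨0, fun h1 h2 h3 => absurd ⟨h1, h2, h3⟩ h⟩
  choose B₀ hB₀ using hmain
  refine ⟨fun n d B => N₀ n d (B + B₀ (n * B) d (if d = 4 then 4 else 3)), ?_⟩
  intro k L _ _ _ _ t ht hfd n d B hn p q hco hmax hcase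
  set m : ℕ := if d = 4 then 4 else 3 with hm
  obtain ⟨hd, hm3, hdm, hcc⟩ : 2 ≤ d ∧ 3 ≤ m ∧ 2 * ((d : ℤ) - 1) < m * ((d : ℤ) - 2) ∧
      HasConstantCriticalPoints k p q d m B := by
    rcases hcase with ⟨h1, h2⟩ | ⟨h1, h2⟩
    · have h3 : m = 3 := by rw [hm, if_neg (by omega)]
      rw [h3]
      refine ⟨by omega, le_rfl, ?_, h2⟩
      have : (5 : ℤ) ≤ d := by exact_mod_cast h1
      push_cast
      linarith
    · have h3 : m = 4 := by rw [hm, if_pos h1]
      rw [h3]
      refine ⟨by omega, by omega, ?_, h2⟩
      rw [h1]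
      norm_num
  obtain ⟨M, i1, i2, i3, i4, i5, hfr, g₁, g₂, hcog, hmaxg, hg₁, hg₂, hsp, ⟨ξ, hξ, hinj⟩, a, b, c, e,
    hdet, hnc, hcj⟩ := hcc
  have cM : CharZero M := charZero_of_injective_algebraMap (algebraMap k M).injective
  have hinj' : Function.Injective (algebraMap L M) := (algebraMap L M).injective
  -- the variable in `M`
  have htM : Transcendental k (algebraMap L M t) := by
    intro h
    exact ht ((isAlgebraic_algebraMap_iff hinj').mp h)
  have hte : Module.finrank (IntermediateField.adjoin k {algebraMap L M t}) M =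
      Module.finrank (IntermediateField.adjoin k {t}) L * Module.finrank L M :=
    Pool.Agent.Y555.CH.t_HTE k L M t
  have htf : FiniteDimensional (IntermediateField.adjoin k {algebraMap L M t}) M := by
    apply FiniteDimensional.of_finrank_pos
    rw [hte]
    exact Nat.mul_pos Module.finrank_pos Module.finrank_pos
  have hle : Module.finrank (IntermediateField.adjoin k {algebraMap L M t}) M ≤ n * B := by
    rw [hte]
    exact Nat.mul_le_mul hn hfr
  -- scaling
  obtain ⟨r, hr, h1⟩ : ∃ r : M, r ≠ 0 ∧ (r * a = 1 ∨ r * b = 1 ∨ r * c = 1 ∨ r * e = 1) := by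
    by_cases ha : a = 0
    · have hb : b ≠ 0 := by
        rintro rfl
        apply hdet
        rw [ha]
        ring
      exact ⟨b⁻¹, inv_ne_zero hb, Or.inr (Or.inl (inv_mul_cancel₀ hb))⟩
    · exact ⟨a⁻¹, inv_ne_zero ha, Or.inl (inv_mul_cancel₀ ha)⟩
  have hdet' : r * a * (r * e) - r * b * (r * c) ≠ 0 := by
    have : r * a * (r * e) - r * b * (r * c) = r * r * (a * e - b * c) := by ring
    rw [this]
    exact mul_ne_zero (mul_ne_zero hr hr) hdet
  have htr : Transcendental k (r * a) ∨ Transcendental k (r * b) ∨ Transcendental k (r * c) ∨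
      Transcendental k (r * e) := by
    by_contra hcon
    push Not at hcon
    unfold Transcendental at hcon
    push Not at hcon
    exact hnc ⟨r, hr, hcon.1, hcon.2.1, hcon.2.2.1, hcon.2.2.2⟩
  obtain ⟨i, hi⟩ := hB₀ (n * B) d m hd hm3 hdm k M (algebraMap L M t) htM htf hle g₁ g₂ hg₁ hg₂
    hcog hmaxg (r * a) (r * b) (r * c) (r * e) hdet' h1 htr ξ
    (fun i => by
      have := hξ i
      cases h : ξ i with
      | none => rw [h] at this; exact this
      | some x => rw [h] at this; exact this)
    (by
      have e1 : Pool.Agent.W277.UH.ratP1 g₁ g₂ d = mapP1 g₁ g₂ d := by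
        funext z
        cases z <;> rfl
      rw [e1]
      exact hinj) _ _ rfl rfl
  set u : M[X] := C (r * a) * g₁ + C (r * b) * g₂ with hu
  set w : M[X] := C (r * c) * g₁ + C (r * e) * g₂ with hw
  have e0 : Pool.Agent.W277.UH.ratP1 u w d =
      Pool.Agent.Results.MP_9b502d_nt.LargeCriticalHeight.mapP1 u w d := by
    funext z
    cases z <;> rfl
  have h2 : ∀ z : Option M, Pool.Agent.Results.MP_9b502d_nt.LargeCriticalHeight.height k z =
      Pool.Agent.Y706.CH.hgt k z := by
    intro z
    cases z <;> rfl
  have hlarge : Pool.Agent.Results.MP_9b502d_nt.LargeCriticalHeight.HasLargeCriticalHeight k p q d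
      (B + B₀ (n * B) d m) := by
    refine ⟨M, i1, i2, i3, i4, i5, hfr.trans (Nat.le_add_right _ _), u, w,
      coprime_comb hcog hdet', deg_comb hmaxg hdet', ?_, ?_, ξ i, ?_, ?_, ?_⟩
    · have h3 := conj_scale hcj r hr
      have h4 : C r * (C a * g₁ + C b * g₂) = u := by rw [hu, C_mul, C_mul]; ring
      have h5 : C r * (C c * g₁ + C e * g₂) = w := by rw [hw, C_mul, C_mul]; ring
      rw [h4, h5] at h3
      exact h3
    · rw [hu, hw, wr_comb]
      exact (Splits.C _).mul hsp
    · have h3 := hξ i
      have h4 := wr_comb g₁ g₂ (r * a) (r * b) (r * c) (r * e)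
      rw [← hu, ← hw] at h4
      cases h : ξ i with
      | none =>
        rw [h] at h3
        show (derivative u * w - u * derivative w).coeff (2 * d - 2) = 0
        rw [h4, coeff_C_mul]
        exact mul_eq_zero_of_right _ h3
      | some x =>
        rw [h] at h3
        show (derivative u * w - u * derivative w).eval x = 0
        rw [h4, eval_mul]
        exact mul_eq_zero_of_right _ h3
    · have hpos : ∀ x : M, Transcendental k x →
          0 < Pool.Agent.Results.MP_9b502d_nt.LargeCriticalHeight.height k (some x) := by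
        classical
        intro x hx
        obtain ⟨C₁, hC₁⟩ := Pool.Agent.X263.CC.exists_places.{u, v}
        obtain ⟨Q, hQ⟩ := hC₁ k M (algebraMap L M t) htM htf _ le_rfl
        have h3 := (hQ x).1
        have h4 := Pool.Agent.X263.CC.hQ_pos Q x (by
          intro c' hc'
          apply hx
          rw [← hc']
          exact mem_algebraicClosure_iff.mp c'.2)
        show 0 < Module.finrank (IntermediateField.adjoin k {x}) M
        by_contra hcon
        push Not at hcon
        have h5 : Module.finrank (IntermediateField.adjoin k {x}) M = 0 := by omega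
        rw [h5, Nat.cast_zero, mul_zero] at h3
        omega
      have hd1 : 1 ≤ d := by omega
      have hsup : ∀ j ≤ d,
          max (Pool.Agent.Results.MP_9b502d_nt.LargeCriticalHeight.height k (some (u.coeff j)))
            (Pool.Agent.Results.MP_9b502d_nt.LargeCriticalHeight.height k (some (w.coeff j))) ≤
          Pool.Agent.Results.MP_9b502d_nt.LargeCriticalHeight.mapHeight k u w d := fun j hj =>
        Finset.le_sup (f := fun i =>
          max (Pool.Agent.Results.MP_9b502d_nt.LargeCriticalHeight.height k (some (u.coeff i)))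
            (Pool.Agent.Results.MP_9b502d_nt.LargeCriticalHeight.height k (some (w.coeff i))))
          (Finset.mem_range.mpr (Nat.lt_succ_of_le hj))
      rcases htr with h | h | h | h
      · obtain ⟨j, hj, hjt⟩ := exists_tr k hcog hmaxg hd1 hg₁ hg₂ (r * a) (r * b) (Or.inl h)
        exact lt_of_lt_of_le (hpos _ hjt) ((le_max_left _ _).trans (hsup j hj))
      · obtain ⟨j, hj, hjt⟩ := exists_tr k hcog hmaxg hd1 hg₁ hg₂ (r * a) (r * b) (Or.inr h)
        exact lt_of_lt_of_le (hpos _ hjt) ((le_max_left _ _).trans (hsup j hj))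
      · obtain ⟨j, hj, hjt⟩ := exists_tr k hcog hmaxg hd1 hg₁ hg₂ (r * c) (r * e) (Or.inl h)
        exact lt_of_lt_of_le (hpos _ hjt) ((le_max_right _ _).trans (hsup j hj))
      · obtain ⟨j, hj, hjt⟩ := exists_tr k hcog hmaxg hd1 hg₁ hg₂ (r * c) (r * e) (Or.inr h)
        exact lt_of_lt_of_le (hpos _ hjt) ((le_max_right _ _).trans (hsup j hj))
    · have hcan : ∀ j,
          (Pool.Agent.Results.MP_9b502d_nt.LargeCriticalHeight.height k (some (u.coeff j)) :
            ENNReal) ≤ ((B + B₀ (n * B) d m : ℕ) : ENNReal) *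
              Pool.Agent.Results.MP_9b502d_nt.LargeCriticalHeight.canonicalHeight k u w d (ξ i) ∧
          (Pool.Agent.Results.MP_9b502d_nt.LargeCriticalHeight.height k (some (w.coeff j)) :
            ENNReal) ≤ ((B + B₀ (n * B) d m : ℕ) : ENNReal) *
              Pool.Agent.Results.MP_9b502d_nt.LargeCriticalHeight.canonicalHeight k u w d
                (ξ i) := by
        intro j
        have h3 := hi j
        unfold Pool.Agent.Results.MP_9b502d_nt.LargeCriticalHeight.canonicalHeight
        simp only [h2]
        rw [← e0]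
        have hB : ((B₀ (n * B) d m : ℕ) : ENNReal) ≤ ((B + B₀ (n * B) d m : ℕ) : ENNReal) := by
          exact_mod_cast Nat.le_add_left _ _
        exact ⟨h3.1.trans (mul_le_mul_left hB _), h3.2.trans (mul_le_mul_left hB _)⟩
      unfold Pool.Agent.Results.MP_9b502d_nt.LargeCriticalHeight.mapHeight
      obtain ⟨j, -, hj⟩ := Finset.exists_mem_eq_sup (Finset.range (d + 1)) ⟨0, by simp⟩
        (fun i =>
          max (Pool.Agent.Results.MP_9b502d_nt.LargeCriticalHeight.height k (some (u.coeff i)))
            (Pool.Agent.Results.MP_9b502d_nt.LargeCriticalHeight.height k (some (w.coeff i))))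
      rw [hj]
      rcases le_total
        (Pool.Agent.Results.MP_9b502d_nt.LargeCriticalHeight.height k (some (u.coeff j)))
        (Pool.Agent.Results.MP_9b502d_nt.LargeCriticalHeight.height k (some (w.coeff j))) with h | h
      · rw [max_eq_right h]
        exact (hcan j).2
      · rw [max_eq_left h]
        exact (hcan j).1
  have hfin := hN₀ k L t ht hfd n d (B + B₀ (n * B) d m) hn hd p q hco hmax (Or.inl hlarge)
  have e3 : mapP1 p q d = Pool.Agent.Results.MP_9b502d_nt.LargeCriticalHeight.mapP1 p q d := by
    funext z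
    cases z <;> rfl
  rw [e3]
  exact hfin

end Pool.Agent.Results.MP_9b502d_nt.ConstantCriticalPoints
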